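import Pool.Agent.Lib.MP_be561b_pr.Final

/-! Exponential relaxation of FA-1f on the integers for every density `q`. -/

namespace Pool.Agent.Results.MP_be561b_pr.ExpRelaxation

open MeasureTheory ProbabilityTheory Filter Pool.Agent.FA1f

theorem result (q : unitInterval) (h0 : 0 < q) (h1 : q < 1) (ν : Measure (ℤ → Bool))
    [IsProbabilityMeasure ν] (κ : ℝ) (hκ : 0 < κ)
    (hν : (fun l : ℕ => ν.real {η | ∀ x : ℤ, |x| ≤ l → η x = true}) =O[atTop]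
      fun l : ℕ => Real.exp (-κ * l)) :
    ∃ μ : ℝ → Measure (ℤ → Bool), IsLaw q ν μ ∧
      (∀ μ', IsLaw q ν μ' → ∀ t, 0 ≤ t → μ' t = μ t) ∧
      ∀ f, IsLocal f → ∃ C c : ℝ, 0 < C ∧ 0 < c ∧ ∀ t, 0 ≤ t →
        |∫ η, f η ∂μ t -
          ∫ η, f η ∂(Measure.infinitePi fun _ : ℤ => bernoulliMeasure false true q)| ≤
          C * Real.exp (-c * t) := by
  have q0 : (0 : ℝ) < q := h0
  have q1 : (q : ℝ) < 1 := h1
  obtain ⟨μ, hμ⟩ := exists_law q0 q1 ν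
  refine ⟨μ, hμ, fun μ' hμ' t ht => law_unique q0 q1 hμ hμ' ht, fun f hf =>
    relaxation q q0 q1 ?_ hμ hf⟩
  obtain ⟨C, C0, H⟩ := hν.exists_nonneg
  refine ⟨κ, hκ, C, C0, H.bound.mono fun r hr => ?_⟩
  rw [Real.norm_eq_abs, Real.norm_eq_abs, abs_of_pos (Real.exp_pos _)] at hr
  show ∫ η, fH 0 r η ∂ν ≤ _
  rw [integral_fH]
  exact (le_abs_self _).trans hr

end Pool.Agent.Results.MP_be561b_pr.ExpRelaxation
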