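import Pool.Agent.Lib.MP_be561b_pr.Fr.Main

/-! The front of FA-1f on the integers has an asymptotic speed for every density `q`, with
exponential concentration, uniformly in the initial law. -/

namespace Pool.Agent.Results.MP_be561b_pr.FrontSpeed

open MeasureTheory Pool.Agent.FA1f

theorem result (q : ℝ) (h0 : 0 < q) (h1 : q < 1) :
    ∃ v : ℝ, 0 < v ∧ ∀ ε : ℝ, 0 < ε → ∃ C c : ℝ, 0 < C ∧ 0 < c ∧
      ∀ (ν : Measure (ℤ → Bool)) [IsProbabilityMeasure ν],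
        (∀ᵐ η ∂ν, η 0 = false ∧ ∀ y < 0, η y = true) →
        ∃ μ : ℝ → Measure (ℤ → Bool), IsLaw q ν μ ∧
          (∀ μ', IsLaw q ν μ' → ∀ t, 0 ≤ t → μ' t = μ t) ∧
          ∀ t, 0 ≤ t →
            (μ t).real {η | ¬ ∃ x : ℤ, η x = false ∧ (∀ y < x, η y = true) ∧
              |(x : ℝ) + v * t| ≤ ε * t} ≤ C * Real.exp (-c * t) := by
  obtain ⟨v, v0, H⟩ := Fr.front_lln h0 h1
  refine ⟨v, v0, fun ε e0 => ?_⟩
  obtain ⟨C, c, C0, c0, A⟩ := H ε e0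
  refine ⟨C, c, C0, c0, fun ν _ hν => ?_⟩
  obtain ⟨μ, hμ⟩ := exists_law h0 h1 ν
  exact ⟨μ, hμ, fun μ' hμ' t ht => law_unique h0 h1 hμ hμ' ht, A ν hν μ hμ⟩

end Pool.Agent.Results.MP_be561b_pr.FrontSpeed
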